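import Pool.Agent.Helper45.FG.St

set_option autoImplicit false

/-!
Project FG, module PFE: every fusion ring has a positive character (Perron-Frobenius).
-/

namespace Pool.Agent.Helper43.FG

open Pool.Agent.Helper45.FG

open scoped BigOperators

/-- a positive matrix maps a nonzero nonnegative vector to a positive vector -/
private theorem pos_mul {I : Type} [Fintype I] {A : I → I → ℝ} (hA : ∀ i k, 0 < A i k) {u : I → ℝ}
    (hu : ∀ i, 0 ≤ u i) {i0 : I} (h0 : 0 < u i0) (i : I) : 0 < ∑ k, A i k * u k :=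
  Finset.sum_pos' (fun k _ => mul_nonneg (hA i k).le (hu k)) ⟨i0, Finset.mem_univ _, mul_pos (hA i i0) h0⟩

/-- the Perron vector of a positive matrix -/
private theorem perron {I : Type} [Fintype I] [Nonempty I] {A : I → I → ℝ} (hA : ∀ i k, 0 < A i k) :
    ∃ (r : ℝ) (v : I → ℝ), (∀ i, 0 < v i) ∧ ∀ i, ∑ k, A i k * v k = r * v i := by
  classical
  set M : ℝ := ∑ i, ∑ k, A i k with hM
  let T : Set ((I → ℝ) × ℝ) := (stdSimplex ℝ I ×ˢ Set.Icc (0 : ℝ) M) ∩
    ⋂ i, {x | x.2 * x.1 i ≤ ∑ k, A i k * x.1 k}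
  have hM0 : 0 ≤ M := Finset.sum_nonneg fun i _ => Finset.sum_nonneg fun k _ => (hA i k).le
  have hT : IsCompact T := by
    refine ((isCompact_stdSimplex (𝕜 := ℝ) I).prod isCompact_Icc).inter_right ?_
    refine isClosed_iInter fun i => isClosed_le ?_ ?_
    · exact continuous_snd.mul ((continuous_apply i).comp continuous_fst)
    · exact continuous_finsetSum _ fun k _ =>
        continuous_const.mul ((continuous_apply k).comp continuous_fst)
  have hne : T.Nonempty := by
    obtain ⟨i0⟩ := (inferInstance : Nonempty I)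
    refine ⟨(Pi.single i0 1, 0), ⟨⟨single_mem_stdSimplex ℝ i0, ⟨le_rfl, hM0⟩⟩, ?_⟩⟩
    refine Set.mem_iInter.2 fun i => ?_
    show (0 : ℝ) * _ ≤ ∑ k, A i k * (Pi.single i0 (1 : ℝ) : I → ℝ) k
    rw [zero_mul]
    refine Finset.sum_nonneg fun k _ => mul_nonneg (hA i k).le ?_
    exact (single_mem_stdSimplex ℝ i0).1 k
  obtain ⟨⟨v, r⟩, hvr, hmax⟩ := hT.exists_isMaxOn hne continuous_snd.continuousOn
  obtain ⟨⟨⟨hv0, hv1⟩, hr0, hr1⟩, hle⟩ := hvr
  have hv0 : ∀ i, 0 ≤ v i := hv0
  have hv1 : ∑ i, v i = 1 := hv1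
  have hr0 : 0 ≤ r := hr0
  have hle : ∀ i, r * v i ≤ ∑ k, A i k * v k := fun i => Set.mem_iInter.1 hle i
  obtain ⟨i0, hi0⟩ : ∃ i0, 0 < v i0 := by
    by_contra h
    push Not at h
    have h1 : ∑ i, v i ≤ 0 := Finset.sum_nonpos fun i _ => h i
    linarith
  have hw : ∀ i, 0 < ∑ k, A i k * v k := pos_mul hA hv0 hi0
  have heq : ∀ i, ∑ k, A i k * v k = r * v i := by
    by_contra hcon
    push Not at hcon
    obtain ⟨i1, hi1⟩ := hcon
    have hi1 : r * v i1 < ∑ k, A i1 k * v k := lt_of_le_of_ne (hle i1) (Ne.symm hi1)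
    set w : I → ℝ := fun i => ∑ k, A i k * v k with hwd
    set u : I → ℝ := fun i => w i - r * v i with hud
    have hu0 : ∀ i, 0 ≤ u i := fun i => sub_nonneg.2 (hle i)
    have hu1 : 0 < u i1 := sub_pos.2 hi1
    have hAu := pos_mul hA hu0 hu1
    obtain ⟨j, hj⟩ := Finite.exists_min fun i => (∑ k, A i k * u k) / w i
    set e : ℝ := (∑ k, A j k * u k) / w j with he
    have he0 : 0 < e := div_pos (hAu j) (hw j)
    have hew : ∀ i, (r + e) * w i ≤ ∑ k, A i k * w k := by
      intro i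
      have h1 : e * w i ≤ ∑ k, A i k * u k := (le_div_iff₀ (hw i)).1 (hj i)
      have h2 : ∑ k, A i k * u k = ∑ k, A i k * w k - r * w i := by
        simp only [hud, mul_sub, Finset.sum_sub_distrib]
        congr 1
        rw [hwd, Finset.mul_sum]
        exact Finset.sum_congr rfl fun k _ => by ring
      linarith
    set s : ℝ := ∑ i, w i with hs
    have hs0 : 0 < s := Finset.sum_pos (fun i _ => hw i) ⟨i0, Finset.mem_univ _⟩
    have hx1 : ∑ i, w i / s = 1 := by
      rw [← Finset.sum_div, div_self hs0.ne']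
    have hx0 : ∀ i, 0 ≤ w i / s := fun i => (div_pos (hw i) hs0).le
    have hx2 : ∀ i, w i / s ≤ 1 := fun i => by
      rw [← hx1]
      exact Finset.single_le_sum (f := fun i => w i / s) (fun i _ => hx0 i) (Finset.mem_univ i)
    have hx3 : ∀ i, (r + e) * (w i / s) ≤ ∑ k, A i k * (w k / s) := by
      intro i
      have h3 : ∑ k, A i k * (w k / s) = (∑ k, A i k * w k) / s := by
        rw [Finset.sum_div]
        exact Finset.sum_congr rfl fun k _ => by ring
      rw [h3, ← mul_div_assoc]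
      exact div_le_div_of_nonneg_right (hew i) hs0.le
    have hx4 : r + e ≤ M := by
      calc r + e = ∑ i, (r + e) * (w i / s) := by rw [← Finset.mul_sum, hx1, mul_one]
        _ ≤ ∑ i, ∑ k, A i k * (w k / s) := Finset.sum_le_sum fun i _ => hx3 i
        _ ≤ M := Finset.sum_le_sum fun i _ => Finset.sum_le_sum fun k _ =>
            mul_le_of_le_one_right (hA i k).le (hx2 k)
    have hmem : ((fun i => w i / s), r + e) ∈ T :=
      ⟨⟨⟨hx0, hx1⟩, ⟨by linarith, hx4⟩⟩, Set.mem_iInter.2 hx3⟩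
    have h5 : r + e ≤ r := hmax hmem
    linarith
  refine ⟨r, v, fun i => ?_, heq⟩
  have h1 := hw i
  rw [heq i] at h1
  exact pos_of_mul_pos_of_pos_left' h1 hr0
where
  pos_of_mul_pos_of_pos_left' {a b : ℝ} (h : 0 < a * b) (ha : 0 ≤ a) : 0 < b :=
    (pos_iff_pos_of_mul_pos h).1 (lt_of_le_of_ne ha fun h0 => by
      rw [← h0, zero_mul] at h
      exact lt_irrefl _ h)

/-- the Perron eigenvalue of a positive matrix is simple -/
private theorem perron_simple {I : Type} [Fintype I] [Nonempty I] {A : I → I → ℝ}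
    (hA : ∀ i k, 0 < A i k) {r : ℝ} {v u : I → ℝ} (hv : ∀ i, 0 < v i)
    (h1 : ∀ i, ∑ k, A i k * v k = r * v i) (h2 : ∀ i, ∑ k, A i k * u k = r * u i) :
    ∃ c : ℝ, ∀ i, u i = c * v i := by
  obtain ⟨j, hj⟩ := Finite.exists_min fun i => u i / v i
  refine ⟨u j / v j, ?_⟩
  have h0 : ∀ i, 0 ≤ u i - u j / v j * v i := fun i => sub_nonneg.2 ((le_div_iff₀ (hv i)).1 (hj i))
  by_contra hcon
  push Not at hcon
  obtain ⟨i, hi⟩ := hcon
  have hi : 0 < u i - u j / v j * v i := lt_of_le_of_ne (h0 i) fun h => hi (by linarith)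
  have h3 := pos_mul hA h0 hi j
  have h4 : ∑ k, A j k * (u k - u j / v j * v k) = 0 := by
    have h5 : ∑ k, A j k * (u k - u j / v j * v k) =
        ∑ k, A j k * u k - u j / v j * ∑ k, A j k * v k := by
      rw [Finset.mul_sum, ← Finset.sum_sub_distrib]
      exact Finset.sum_congr rfl fun k _ => by ring
    rw [h5, h1, h2]
    have h6 : u j / v j * v j = u j := div_mul_cancel₀ _ (hv j).ne'
    have h7 : u j / v j * (r * v j) = r * (u j / v j * v j) := by ring
    rw [h7, h6, sub_self]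
  linarith

theorem hPFE : StPFE := by
  classical
  intro I _ R
  have : Nonempty I := ⟨R.one⟩
  -- right multiplication by the sum of all objects
  set A : I → I → ℝ := fun i k => ∑ j, (R.N i j k : ℝ) with hAd
  have hA : ∀ i k, 0 < A i k := by
    intro i k
    have h1 := R.assoc i (R.dual i) k k
    have h2 : 1 ≤ ∑ m, R.N i (R.dual i) m * R.N m k k := by
      have h3 := Finset.single_le_sum (f := fun m => R.N i (R.dual i) m * R.N m k k)
        (fun _ _ => Nat.zero_le _) (Finset.mem_univ R.one)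
      simp only [R.dual_self, R.one_mul_self] at h3
      omega
    rw [h1] at h2
    have h4 : ∃ m, R.N i m k ≠ 0 := by
      by_contra h
      push Not at h
      have h5 : ∑ m, R.N (R.dual i) k m * R.N i m k = 0 :=
        Finset.sum_eq_zero fun m _ => by rw [h m, mul_zero]
      omega
    obtain ⟨m, hm⟩ := h4
    exact Finset.sum_pos' (fun j _ => Nat.cast_nonneg _)
      ⟨m, Finset.mem_univ _, Nat.cast_pos.2 (Nat.pos_of_ne_zero hm)⟩
  obtain ⟨r, v, hv, hAv⟩ := perron hA
  have hass : ∀ i j m l, ∑ k, (R.N j m k : ℝ) * (R.N i k l : ℝ) = ∑ p, (R.N i j p : ℝ) * (R.N p m l : ℝ) := by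
    intro i j m l
    have h := congrArg (fun n : ℕ => (n : ℝ)) (R.assoc i j m l)
    simp only [Nat.cast_sum, Nat.cast_mul] at h
    exact h.symm
  have key : ∀ i j, ∑ k, A j k * (∑ l, (R.N i k l : ℝ) * v l) = r * ∑ k, (R.N i j k : ℝ) * v k := by
    intro i j
    calc ∑ k, A j k * (∑ l, (R.N i k l : ℝ) * v l)
        = ∑ k, ∑ m, ∑ l, (R.N j m k : ℝ) * ((R.N i k l : ℝ) * v l) :=
          Finset.sum_congr rfl fun k _ => Finset.sum_mul_sum _ _ _ _
      _ = ∑ m, ∑ k, ∑ l, (R.N j m k : ℝ) * ((R.N i k l : ℝ) * v l) := Finset.sum_comm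
      _ = ∑ m, ∑ l, ∑ k, (R.N j m k : ℝ) * ((R.N i k l : ℝ) * v l) :=
          Finset.sum_congr rfl fun m _ => Finset.sum_comm
      _ = ∑ m, ∑ l, ∑ p, (R.N i j p : ℝ) * ((R.N p m l : ℝ) * v l) := by
          refine Finset.sum_congr rfl fun m _ => Finset.sum_congr rfl fun l _ => ?_
          simp only [← mul_assoc]
          rw [← Finset.sum_mul, ← Finset.sum_mul, hass]
      _ = ∑ m, ∑ p, ∑ l, (R.N i j p : ℝ) * ((R.N p m l : ℝ) * v l) :=
          Finset.sum_congr rfl fun m _ => Finset.sum_comm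
      _ = ∑ p, ∑ m, ∑ l, (R.N i j p : ℝ) * ((R.N p m l : ℝ) * v l) := Finset.sum_comm
      _ = ∑ p, (R.N i j p : ℝ) * ∑ l, A p l * v l := by
          refine Finset.sum_congr rfl fun p _ => ?_
          rw [Finset.sum_comm, Finset.mul_sum]
          refine Finset.sum_congr rfl fun l _ => ?_
          rw [← Finset.mul_sum, ← Finset.sum_mul]
      _ = r * ∑ k, (R.N i j k : ℝ) * v k := by
          rw [Finset.mul_sum]
          refine Finset.sum_congr rfl fun p _ => ?_
          rw [hAv]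
          ring
  have hone : ∀ i, ∑ l, (R.N i R.one l : ℝ) * v l = v i := by
    intro i
    rw [Finset.sum_eq_single i]
    · rw [R.mul_one_self, Nat.cast_one, one_mul]
    · intro l _ hl
      rw [R.mul_one_ne i l hl, Nat.cast_zero, zero_mul]
    · intro h
      exact absurd (Finset.mem_univ i) h
  have hd : ∀ i j, v i / v R.one * v j = ∑ l, (R.N i j l : ℝ) * v l := by
    intro i j
    obtain ⟨c, hc⟩ := perron_simple hA hv hAv (key i)
    have h1 := hc R.one
    rw [hone] at h1
    rw [hc j, h1, mul_div_cancel_right₀ _ (hv R.one).ne']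
  refine ⟨fun i => v i / v R.one, fun i => div_pos (hv i) (hv R.one), fun i j => ?_⟩
  rw [← mul_div_assoc, hd i j, Finset.sum_div]
  exact Finset.sum_congr rfl fun k _ => by rw [mul_div_assoc]

end Pool.Agent.Helper43.FG
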